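import Pool.Agent.Helper88.CN.Main

set_option autoImplicit false

namespace Pool.Agent.Results.MP_de9ce4_nt.SignFormula

open Pool.Agent.Helper88.CN

/-- Let `p` be a prime and `K` the field generated over the rationals by a square root of `-p`
(a number field of degree two containing a square root of `-p`), with class number `h`.
If `p` is congruent to 1 modulo 24 then `T_p(1)` and `T_p(-1)` are positive reals; if `p` is
congruent to 7 modulo 24 then `T_p(1)` and `-T_p(-1)` are positive reals. -/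
theorem result (p : ℕ) [Fact p.Prime] (K : Type*) [Field K] [NumberField K]
    (hK : Module.finrank ℚ K = 2) (s : K) (hs : s ^ 2 = -(p : K)) :
    (p % 24 = 1 →
      (∃ r : ℝ, 0 < r ∧ Tp p (NumberField.classNumber K) 1 = (r : ℂ)) ∧
      (∃ r : ℝ, 0 < r ∧ Tp p (NumberField.classNumber K) (-1) = (r : ℂ))) ∧
    (p % 24 = 7 →
      (∃ r : ℝ, 0 < r ∧ Tp p (NumberField.classNumber K) 1 = (r : ℂ)) ∧
      (∃ r : ℝ, 0 < r ∧ -Tp p (NumberField.classNumber K) (-1) = (r : ℂ))) := by
  refine ⟨fun h => ⟨main_one p hK hs h (Or.inl rfl), main_one p hK hs h (Or.inr rfl)⟩,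
    fun h => ⟨?_, ?_⟩⟩
  · obtain ⟨r, hr, h1⟩ := main_seven p hK hs h (Or.inl rfl)
    exact ⟨r, hr, by rw [← h1]; simp⟩
  · obtain ⟨r, hr, h1⟩ := main_seven p hK hs h (Or.inr rfl)
    exact ⟨r, hr, by rw [← h1]; simp⟩

end Pool.Agent.Results.MP_de9ce4_nt.SignFormula
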